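import Pool.Agent.Y729.HT.Z4

/-!
# Cheeger constants of k-net graphs: the sharp threshold

For every `h ∈ [0, ∞]` and every natural number `d`:

* if `d > h + 3` then `inf_{k ≥ 1} f(h, d, k) = 0`;
* if `d ≤ h + 3` then no infinite connected graph has Cheeger constant larger than `h` and all
  degrees smaller than `d`, so that `f(h, d, k) = ∞` for all `k`.

Q1 is the case `h = 1`, `d = 10`.  For `h = 1` the infimum is `0` already for `d = 5`, that is for
graphs of maximal degree at most `4`, and `d = 5` is the least possible value.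
-/

set_option autoImplicit false

namespace Pool.Agent.Results.MP_f4bed7_co.SharpThreshold

/-- The edges of `H` with exactly one endpoint in `A`. -/
def edgeBoundary {V : Type*} (H : SimpleGraph V) (A : Set V) : Set (Sym2 V) :=
  {e | ∃ u v, u ∈ A ∧ v ∉ A ∧ H.Adj u v ∧ e = s(u, v)}

/-- The Cheeger (edge-isoperimetric) constant of `H`: the infimum of `|∂_E A| / |A|` over the
finite nonempty sets `A` of vertices. -/
noncomputable def cheeger {V : Type*} (H : SimpleGraph V) : ENNReal :=
  ⨅ (A : Finset V) (_ : A.Nonempty),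
    (((edgeBoundary H (A : Set V)).encard : ℕ∞) : ENNReal) / (A.card : ENNReal)

/-- `S` is a `k`-net of `G`: it is maximal under inclusion among the sets whose points are
pairwise at distance at least `k`. -/
def IsNet {V : Type*} (G : SimpleGraph V) (k : ℕ) (S : Set V) : Prop :=
  Maximal (fun T : Set V => ∀ x ∈ T, ∀ y ∈ T, x ≠ y → k ≤ G.dist x y) S

/-- The `k`-net graph: the vertex set is `S`, and `u ≠ v` are adjacent iff `d_G(u,v) ≤ 2k`. -/
def netGraph {V : Type*} (G : SimpleGraph V) (k : ℕ) (S : Set V) : SimpleGraph S where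
  Adj u v := u ≠ v ∧ G.dist (u : V) (v : V) ≤ 2 * k
  symm := ⟨fun u v h => ⟨h.1.symm, by rw [SimpleGraph.dist_comm]; exact h.2⟩⟩
  loopless := ⟨fun u h => h.1 rfl⟩

/-- `f h d k`: the infimum of the Cheeger constants of the `k`-net graphs of the infinite connected
graphs with Cheeger constant larger than `h` and all degrees smaller than `d` (it is `⊤ = ∞` if
there are no such graphs). -/
noncomputable def f (h : ENNReal) (d k : ℕ) : ENNReal :=
  ⨅ (V : Type) (G : SimpleGraph V) (S : Set V) (_ : Infinite V) (_ : G.Connected)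
    (_ : h < cheeger G) (_ : ∀ v, (G.neighborSet v).encard < d) (_ : IsNet G k S),
    cheeger (netGraph G k S)

theorem f_eq (h : ENNReal) (d k : ℕ) : f h d k = Pool.Agent.Y729.HT.f h d k := rfl

/-- **Sharp threshold.** For every `h` and every natural number `d`:

* if `h + 3 < d` then the infimum over `k ≥ 1` of `f h d k` is `0`; in other words, for every
  `ε > 0` there are `k ≥ 1`, an infinite connected graph with all degrees smaller than `d` and
  Cheeger constant larger than `h`, and a `k`-net of it whose net graph has Cheeger constant less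
  than `ε`;
* if `d ≤ h + 3` then there is no infinite connected graph (in any universe) with all degrees
  smaller than `d` and Cheeger constant larger than `h`, and `f h d k = ⊤` for every `k`.

In particular the infimum over `k ≥ 1` of `f 1 10 k` is `0`, a negative answer to Q1, and even the
infimum of `f 1 5 k` is `0`. -/
theorem result :
    (∀ (h : ENNReal) (d : ℕ), h + 3 < d →
      (⨅ (k : ℕ) (_ : 1 ≤ k), f h d k) = 0 ∧
      ∀ ε : ENNReal, 0 < ε → ∃ (k : ℕ) (V : Type) (G : SimpleGraph V) (S : Set V),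
        1 ≤ k ∧ Infinite V ∧ G.Connected ∧ (∀ v, (G.neighborSet v).encard < d) ∧
        h < cheeger G ∧ IsNet G k S ∧ cheeger (netGraph G k S) < ε) ∧
    (∀ (h : ENNReal) (d : ℕ), (d : ENNReal) ≤ h + 3 →
      (∀ (V : Type*) (G : SimpleGraph V), Infinite V → G.Connected →
        (∀ v, (G.neighborSet v).encard < d) → cheeger G ≤ h) ∧
      ∀ k : ℕ, f h d k = ⊤) ∧
    (⨅ (k : ℕ) (_ : 1 ≤ k), f 1 10 k) = 0 ∧ (⨅ (k : ℕ) (_ : 1 ≤ k), f 1 5 k) = 0 := by
  have key : ∀ (h : ENNReal) (d : ℕ), h + 3 < d → (⨅ (k : ℕ) (_ : 1 ≤ k), f h d k) = 0 := by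
    intro h d hd
    simp only [f_eq]
    exact Pool.Agent.Y729.HT.f_inf_zero h d (Pool.Agent.Y729.HT.sharp h d hd)
  refine ⟨fun h d hd => ⟨key h d hd, Pool.Agent.Y729.HT.sharp h d hd⟩,
    fun h d hd => ⟨fun V G hV hG hdeg => ?_, fun k => ?_⟩, key 1 10 ?_, key 1 5 ?_⟩
  · exact Pool.Agent.Y729.HT.cheeger_le hG hdeg h hd
  · rw [f_eq]
    exact Pool.Agent.Y729.HT.f_eq_top h d hd k
  · norm_num
  · norm_num

end Pool.Agent.Results.MP_f4bed7_co.SharpThreshold
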